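import Mathlib
import Pool.Agent.TH119.GO.Sub

/-!
# Words of bounded length and subquotients in terms of matrices
-/

set_option autoImplicit false
set_option linter.unusedSectionVars false

namespace Pool.Agent.TH119.UF

open Matrix
open Pool.Agent.TH119.GO (SubQ TT TT_mul Irr)
open Pool.Agent.TH119.OP (sp mem_sp)
open scoped Pointwise

/-- The generators and their inverses. -/
noncomputable def gs (r : ℕ) : Set (FreeGroup (Fin r)) :=
  Set.range FreeGroup.of ∪ Set.range fun i => (FreeGroup.of i)⁻¹

/-- The words of length at most `L`. -/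
noncomputable def tw (r : ℕ) : ℕ → Set (FreeGroup (Fin r))
  | 0 => {1}
  | L + 1 => tw r L ∪ tw r L * gs r

theorem finite_gs (r : ℕ) : (gs r).Finite := (Set.finite_range _).union (Set.finite_range _)

theorem finite_tw (r L : ℕ) : (tw r L).Finite := by
  induction L with
  | zero => exact Set.finite_singleton _
  | succ L ih => exact ih.union (ih.mul (finite_gs r))

theorem one_mem_tw (r L : ℕ) : (1 : FreeGroup (Fin r)) ∈ tw r L := by
  induction L with
  | zero => exact Set.mem_singleton _
  | succ L ih => exact Or.inl ih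

section words

variable {r N : ℕ} {k : Type} [Field k] (D : FreeGroup (Fin r) →* GL (Fin N) k)

/-- The span of the images of the words of length at most `L`. -/
noncomputable def sl (L : ℕ) : Submodule k (Matrix (Fin N) (Fin N) k) :=
  Submodule.span k ((fun h => (D h : Matrix (Fin N) (Fin N) k)) '' tw r L)

theorem mem_sl {L : ℕ} {h : FreeGroup (Fin r)} (hh : h ∈ tw r L) :
    (D h : Matrix (Fin N) (Fin N) k) ∈ sl D L := Submodule.subset_span ⟨h, hh, rfl⟩

theorem sl_mono (L : ℕ) : sl D L ≤ sl D (L + 1) :=
  Submodule.span_mono (Set.image_mono Set.subset_union_left)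

theorem sl_stable (L : ℕ) (h : sl D (L + 1) ≤ sl D L) (g : FreeGroup (Fin r)) :
    (D g : Matrix (Fin N) (Fin N) k) ∈ sl D L := by
  have hgen : ∀ g ∈ gs r, ∀ x ∈ sl D L, x * (D g : Matrix (Fin N) (Fin N) k) ∈ sl D L := by
    intro g hg x hx
    unfold sl at hx
    induction hx using Submodule.span_induction with
    | mem x hx =>
      obtain ⟨h', hh', rfl⟩ := hx
      apply h
      have h1 : (D h' : Matrix (Fin N) (Fin N) k) * (D g : Matrix (Fin N) (Fin N) k) =
          D (h' * g) := by rw [map_mul, Units.val_mul]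
      show (D h' : Matrix (Fin N) (Fin N) k) * (D g : Matrix (Fin N) (Fin N) k) ∈ _
      rw [h1]
      exact mem_sl D (Or.inr (Set.mul_mem_mul hh' hg))
    | zero => rw [zero_mul]; exact Submodule.zero_mem _
    | add a b _ _ ha hb => rw [add_mul]; exact Submodule.add_mem _ ha hb
    | smul c a _ ha => rw [smul_mul_assoc]; exact Submodule.smul_mem _ _ ha
  have hall : ∀ x ∈ sl D L, x * (D g : Matrix (Fin N) (Fin N) k) ∈ sl D L := by
    induction g using FreeGroup.induction_on with
    | C1 => intro x hx; rwa [map_one, Units.val_one, mul_one]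
    | of i => exact hgen _ (Or.inl ⟨i, rfl⟩)
    | inv_of i _ => exact hgen _ (Or.inr ⟨i, rfl⟩)
    | mul a b ha hb =>
      intro x hx
      rw [map_mul, Units.val_mul, ← mul_assoc]
      exact hb _ (ha x hx)
  have h2 := hall _ (mem_sl D (one_mem_tw r L))
  rwa [map_one, Units.val_one, one_mul] at h2

theorem sl_rank (L : ℕ) : (∀ g, (D g : Matrix (Fin N) (Fin N) k) ∈ sl D L) ∨
    L ≤ Module.finrank k (sl D L) := by
  induction L with
  | zero => exact Or.inr (Nat.zero_le _)
  | succ L ih =>
    by_cases h : ∀ g, (D g : Matrix (Fin N) (Fin N) k) ∈ sl D L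
    · exact Or.inl fun g => sl_mono D L (h g)
    · right
      have h1 := ih.resolve_left h
      have h2 : ¬ sl D (L + 1) ≤ sl D L := fun h3 => h (sl_stable D L h3)
      have h3 : sl D L < sl D (L + 1) := lt_of_le_not_ge (sl_mono D L) h2
      have h4 := Submodule.finrank_lt_finrank_of_lt h3
      omega

theorem words (g : FreeGroup (Fin r)) :
    (D g : Matrix (Fin N) (Fin N) k) ∈ sl D (N * N + 1) := by
  rcases sl_rank D (N * N + 1) with h | h
  · exact h g
  · exfalso
    have h1 := Submodule.finrank_le (sl D (N * N + 1))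
    rw [Module.finrank_matrix, Fintype.card_fin, Module.finrank_self, mul_one] at h1
    omega

end words

section crit

variable {G : Type*} [Group G] {k : Type*} [Field k] {n : ℕ} {ι : Type*} [Fintype ι]

/-- Subquotients in terms of matrices. -/
theorem subQ_iff {ρ : G →* GL (Fin n) k} {M : G → Matrix ι ι k}
    (hM : ∀ g h, M (g * h) = M g * M h) :
    SubQ ρ M ↔ ∃ (P : Matrix (Fin n) ι k) (S : Matrix ι (Fin n) k), ∀ g,
      (ρ g : Matrix (Fin n) (Fin n) k) = P * M g * S := by
  classical
  constructor
  · rintro ⟨U, hU, π, hπ, he⟩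
    obtain ⟨σ, hσ⟩ := π.exists_rightInverse_of_surjective (LinearMap.range_eq_top.2 hπ)
    obtain ⟨Φ, hΦ⟩ := LinearMap.exists_extend π
    refine ⟨LinearMap.toMatrix' Φ, LinearMap.toMatrix' (U.subtype.comp σ), fun g => ?_⟩
    apply Matrix.toLin'.injective
    refine LinearMap.ext fun v => ?_
    rw [Matrix.toLin'_mul, Matrix.toLin'_mul, Matrix.toLin'_toMatrix', Matrix.toLin'_toMatrix',
      LinearMap.comp_apply, LinearMap.comp_apply, LinearMap.comp_apply, Matrix.toLin'_apply,
      Matrix.toLin'_apply]
    have h1 : Φ ((M g).mulVec (σ v : ι → k)) = π ⟨(M g).mulVec (σ v), hU g _ (σ v).2⟩ := by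
      rw [← hΦ]
      rfl
    have h2 : π (σ v) = v := LinearMap.congr_fun hσ v
    rw [Submodule.subtype_apply, h1, he, h2]
  · rintro ⟨P, S, h⟩
    let U : Submodule k (ι → k) :=
      Submodule.span k (Set.range fun p : G × (Fin n → k) => (M p.1).mulVec (S.mulVec p.2))
    have hU : ∀ g, ∀ u ∈ U, (M g).mulVec u ∈ U := by
      intro g u hu
      induction hu using Submodule.span_induction with
      | mem x hx =>
        obtain ⟨⟨h', v⟩, rfl⟩ := hx
        have h1 : (M g).mulVec ((M h').mulVec (S.mulVec v)) =
            (M (g * h')).mulVec (S.mulVec v) := by rw [Matrix.mulVec_mulVec, hM]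
        show (M g).mulVec ((M h').mulVec (S.mulVec v)) ∈ U
        rw [h1]
        exact Submodule.subset_span ⟨(g * h', v), rfl⟩
      | zero => rw [Matrix.mulVec_zero]; exact Submodule.zero_mem _
      | add a b _ _ ha hb => rw [Matrix.mulVec_add]; exact Submodule.add_mem _ ha hb
      | smul c a _ ha => rw [Matrix.mulVec_smul]; exact Submodule.smul_mem _ _ ha
    have hP : ∀ g v, P.mulVec ((M g).mulVec (S.mulVec v)) =
        (ρ g : Matrix (Fin n) (Fin n) k).mulVec v := by
      intro g v
      rw [h g, Matrix.mulVec_mulVec, Matrix.mulVec_mulVec]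
    have hequ : ∀ g, ∀ u ∈ U, P.mulVec ((M g).mulVec u) =
        (ρ g : Matrix (Fin n) (Fin n) k).mulVec (P.mulVec u) := by
      intro g u hu
      induction hu using Submodule.span_induction with
      | mem x hx =>
        obtain ⟨⟨h', v⟩, rfl⟩ := hx
        have h1 : (M g).mulVec ((M h').mulVec (S.mulVec v)) =
            (M (g * h')).mulVec (S.mulVec v) := by rw [Matrix.mulVec_mulVec, hM]
        show P.mulVec ((M g).mulVec ((M h').mulVec (S.mulVec v))) =
          (ρ g : Matrix (Fin n) (Fin n) k).mulVec (P.mulVec ((M h').mulVec (S.mulVec v)))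
        rw [h1, hP, hP, map_mul, Units.val_mul, Matrix.mulVec_mulVec]
      | zero => simp only [Matrix.mulVec_zero]
      | add a b _ _ ha hb => simp only [Matrix.mulVec_add, ha, hb]
      | smul c a _ ha => simp only [Matrix.mulVec_smul, ha]
    refine ⟨U, hU, P.mulVecLin.comp U.subtype, ?_, ?_⟩
    · intro v
      refine ⟨⟨(M 1).mulVec (S.mulVec v), Submodule.subset_span ⟨(1, v), rfl⟩⟩, ?_⟩
      show P.mulVec ((M 1).mulVec (S.mulVec v)) = v
      rw [hP, map_one, Units.val_one, Matrix.one_mulVec]
    · intro g u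
      exact hequ g u u.2

/-- A representation which spans the matrices is irreducible. -/
theorem irr_of_sp {ρ : G →* GL (Fin n) k} (h : sp ρ = ⊤) : Irr ρ := by
  classical
  intro V hV
  by_cases hbot : V = ⊥
  · exact Or.inl hbot
  · right
    have hall : ∀ X : Matrix (Fin n) (Fin n) k, ∀ x ∈ V, X.mulVec x ∈ V := by
      intro X x hx
      have hX : X ∈ sp ρ := by rw [h]; trivial
      unfold sp at hX
      induction hX using Submodule.span_induction with
      | mem X hX =>
        obtain ⟨g, rfl⟩ := hX
        exact hV g x hx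
      | zero => rw [Matrix.zero_mulVec]; exact V.zero_mem
      | add a b _ _ ha hb => rw [Matrix.add_mulVec]; exact V.add_mem ha hb
      | smul c a _ ha => rw [Matrix.smul_mulVec]; exact V.smul_mem _ ha
    obtain ⟨x, hx, hx0⟩ := Submodule.exists_mem_ne_zero_of_ne_bot hbot
    obtain ⟨j, hj⟩ : ∃ j, x j ≠ 0 := by
      by_contra hcon
      push Not at hcon
      exact hx0 (funext hcon)
    rw [eq_top_iff]
    intro y _
    have h1 := hall (Matrix.of fun a b => if b = j then y a * (x j)⁻¹ else 0) x hx
    have h2 : (Matrix.of fun a b => if b = j then y a * (x j)⁻¹ else 0).mulVec x = y := by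
      funext a
      rw [Matrix.mulVec, dotProduct]
      simp only [Matrix.of_apply, ite_mul, zero_mul]
      rw [Finset.sum_ite_eq' Finset.univ j, if_pos (Finset.mem_univ _), mul_assoc,
        inv_mul_cancel₀ hj, mul_one]
    rwa [h2] at h1

end crit

end Pool.Agent.TH119.UF
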