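import Mathlib
import Pool.Agent.TH119.UF.Words
import Pool.Agent.TH119.GO.Alg
import Pool.Agent.TH119.FT.Tensor
import Pool.Agent.TH119.PP.Block
import Pool.Agent.TH119.PP.Burn

/-!
# Ultraproducts of representations
-/

set_option autoImplicit false
set_option linter.unusedSectionVars false

namespace Pool.Agent.TH119.UF

open Matrix Polynomial Filter
open Pool.Agent.TH119.GO (SubQ TT TT_mul TT_apply Irr ent ent' ent_mem_AA exists_subQ)
open Pool.Agent.TH119.OP (sp mem_sp SS)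
open Pool.Agent.TH119.FT (mkHom mkHom_apply tg tg_apply sz nu)

variable {K : Type} [Field K] (U : Ultrafilter ℕ) (ev : (ℕ → ℂ) →+* K)

theorem ev_eq (hev : ∀ c, ev c = 0 ↔ ∀ᶠ i in (U : Filter ℕ), c i = 0) (a b : ℕ → ℂ) :
    ev a = ev b ↔ ∀ᶠ i in (U : Filter ℕ), a i = b i := by
  rw [← sub_eq_zero, ← map_sub, hev]
  refine eventually_congr (Eventually.of_forall fun i => ?_)
  rw [Pi.sub_apply, sub_eq_zero]

/-- The ultraproduct is algebraically closed. -/
theorem algClosed (hs : Function.Surjective ev) : IsAlgClosed K := by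
  refine IsAlgClosed.of_exists_root K fun p hp hirr => ?_
  choose c hc using fun j => hs (p.coeff j)
  set d := p.natDegree with hd
  have hd0 : 0 < d := hirr.natDegree_pos
  have hroot : ∀ i : ℕ, ∃ x : ℂ, x ^ d + ∑ j ∈ Finset.range d, c j i * x ^ j = 0 := by
    intro i
    set r : ℂ[X] := ∑ j ∈ Finset.range d, C (c j i) * X ^ j with hr
    have hrd : r.degree < d := by
      rw [hr]
      refine lt_of_le_of_lt (Polynomial.degree_sum_le _ _) ?_
      rw [Finset.sup_lt_iff (by exact_mod_cast WithBot.bot_lt_coe d)]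
      intro j hj
      refine lt_of_le_of_lt (Polynomial.degree_C_mul_X_pow_le _ _) ?_
      exact_mod_cast Finset.mem_range.1 hj
    have hdeg : (X ^ d + r : ℂ[X]).degree = (X ^ d : ℂ[X]).degree :=
      Polynomial.degree_add_eq_left_of_degree_lt (by rwa [Polynomial.degree_X_pow])
    obtain ⟨x, hx⟩ := IsAlgClosed.exists_root (X ^ d + r) (by
      rw [hdeg, Polynomial.degree_X_pow]
      exact_mod_cast hd0.ne')
    refine ⟨x, ?_⟩
    rw [IsRoot.def, eval_add, eval_pow, eval_X, hr, eval_finsetSum] at hx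
    simpa using hx
  choose x hx using hroot
  refine ⟨ev x, ?_⟩
  rw [hp.as_sum, eval_add, eval_pow, eval_X, eval_finsetSum, ← hd]
  simp only [eval_mul, eval_C, eval_pow, eval_X, ← hc, ← map_pow, ← map_mul, ← map_sum,
    ← map_add]
  have h1 : (x ^ d + ∑ j ∈ Finset.range d, c j * x ^ j : ℕ → ℂ) = 0 := by
    funext i
    rw [Pi.add_apply, Pi.pow_apply, Finset.sum_apply]
    exact hx i
  rw [h1, map_zero]

include ev in
theorem charZeroK : CharZero K :=
  charZero_of_injective_ringHom (f := ev.comp (Pi.constRingHom ℕ ℂ)) (RingHom.injective _)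

variable {F : Type} [Group F] {n m : ℕ}

/-- The matrix of sequences. -/
noncomputable def sq (ρ : ℕ → (F →* GL (Fin n) ℂ)) (g : F) : Matrix (Fin n) (Fin n) (ℕ → ℂ) :=
  Matrix.of fun p q i => (ρ i g : Matrix (Fin n) (Fin n) ℂ) p q

theorem sq_map (ρ : ℕ → (F →* GL (Fin n) ℂ)) (g : F) (i : ℕ) :
    (sq ρ g).map (Pi.evalRingHom (fun _ : ℕ => ℂ) i) = (ρ i g : Matrix (Fin n) (Fin n) ℂ) := rfl

theorem sq_mul (ρ : ℕ → (F →* GL (Fin n) ℂ)) (g h : F) : sq ρ (g * h) = sq ρ g * sq ρ h := by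
  ext p q i
  rw [Matrix.mul_apply, Finset.sum_apply]
  show (ρ i (g * h) : Matrix (Fin n) (Fin n) ℂ) p q = _
  rw [map_mul, Units.val_mul, Matrix.mul_apply]
  rfl

theorem sq_one (ρ : ℕ → (F →* GL (Fin n) ℂ)) : sq ρ 1 = 1 := by
  ext p q i
  show (ρ i 1 : Matrix (Fin n) (Fin n) ℂ) p q = _
  rw [map_one, Units.val_one, Matrix.one_apply, Matrix.one_apply]
  split_ifs <;> rfl

/-- The ultraproduct of representations. -/
noncomputable def gr (ρ : ℕ → (F →* GL (Fin n) ℂ)) : F →* GL (Fin n) K :=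
  mkHom (fun g => (sq ρ g).map ev)
    (by rw [sq_one, Matrix.map_one _ (map_zero ev) (map_one ev)])
    (fun g h => by rw [sq_mul, Matrix.map_mul])

theorem gr_apply (ρ : ℕ → (F →* GL (Fin n) ℂ)) (g : F) (p q : Fin n) :
    (gr ev ρ g : Matrix (Fin n) (Fin n) K) p q =
      ev fun i => (ρ i g : Matrix (Fin n) (Fin n) ℂ) p q := rfl

theorem gr_val (ρ : ℕ → (F →* GL (Fin n) ℂ)) (g : F) :
    (gr ev ρ g : Matrix (Fin n) (Fin n) K) = (sq ρ g).map ev := rfl

theorem TT_gr (W : ℕ → (F →* GL (Fin m) ℂ)) (a b : ℕ) (g : F)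
    (I J : (Fin a → Fin m) × (Fin b → Fin m)) :
    TT (gr ev W) a b g I J = ev fun i => TT (W i) a b g I J := by
  have h1 : (fun i => TT (W i) a b g I J) =
      (∏ s, fun i => (W i g : Matrix (Fin m) (Fin m) ℂ) (I.1 s) (J.1 s)) *
        ∏ t, fun i => (W i g⁻¹ : Matrix (Fin m) (Fin m) ℂ) (J.2 t) (I.2 t) := by
    funext i
    rw [Pi.mul_apply, Finset.prod_apply, Finset.prod_apply, TT_apply]
    rfl
  rw [h1, map_mul, map_prod, map_prod]
  rfl

/-- Divisibility of the characteristic polynomials passes to the ultraproduct. -/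
theorem dvd_gr (hev : ∀ c, ev c = 0 ↔ ∀ᶠ i in (U : Filter ℕ), c i = 0)
    (ρ : ℕ → (F →* GL (Fin n) ℂ)) (W : ℕ → (F →* GL (Fin m) ℂ)) (e : ℕ) (g : F)
    (h : ∀ᶠ i in (U : Filter ℕ), (ρ i g : Matrix (Fin n) (Fin n) ℂ).charpoly ∣
      (W i g : Matrix (Fin m) (Fin m) ℂ).charpoly ^ e) :
    (gr ev ρ g : Matrix (Fin n) (Fin n) K).charpoly ∣
      (gr ev W g : Matrix (Fin m) (Fin m) K).charpoly ^ e := by
  set rm := (sq W g).charpoly ^ e %ₘ (sq ρ g).charpoly with hrm
  have h1 : rm.map ev = (gr ev W g : Matrix (Fin m) (Fin m) K).charpoly ^ e %ₘ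
      (gr ev ρ g : Matrix (Fin n) (Fin n) K).charpoly := by
    rw [hrm, Polynomial.map_modByMonic _ (Matrix.charpoly_monic _), Polynomial.map_pow,
      ← Matrix.charpoly_map, ← Matrix.charpoly_map, gr_val, gr_val]
  have h2 : ∀ i, rm.map (Pi.evalRingHom (fun _ : ℕ => ℂ) i) =
      (W i g : Matrix (Fin m) (Fin m) ℂ).charpoly ^ e %ₘ
      (ρ i g : Matrix (Fin n) (Fin n) ℂ).charpoly := by
    intro i
    rw [hrm, Polynomial.map_modByMonic _ (Matrix.charpoly_monic _), Polynomial.map_pow,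
      ← Matrix.charpoly_map, ← Matrix.charpoly_map, sq_map, sq_map]
  rw [← modByMonic_eq_zero_iff_dvd (Matrix.charpoly_monic _), ← h1]
  ext j
  rw [coeff_map, coeff_zero, hev]
  refine h.mono fun i hi => ?_
  have h3 := (modByMonic_eq_zero_iff_dvd (Matrix.charpoly_monic _)).2 hi
  rw [← h2] at h3
  have h4 := congrArg (fun q => coeff q j) h3
  simp only [coeff_map, coeff_zero] at h4
  exact h4

end Pool.Agent.TH119.UF
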