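import Mathlib
import Pool.Agent.TH119.UF.Ultra

/-!
# The uniform finite criterion
-/

set_option autoImplicit false
set_option linter.unusedSectionVars false

namespace Pool.Agent.TH119.UF

open Matrix Polynomial Filter
open Pool.Agent.TH119.GO (SubQ TT TT_mul TT_apply Irr ent ent' ent_mem_AA exists_subQ AA AA_le_of
  ent_mem ent'_mem)
open Pool.Agent.TH119.OP (sp mem_sp SS)
open Pool.Agent.TH119.FT (mkHom mkHom_apply tg tg_apply sz nu)
open Pool.Agent.TH119.PP (bd bd_inl bd_inr sp_top)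

variable {K : Type} [Field K] (U : Ultrafilter ℕ) (ev : (ℕ → ℂ) →+* K)

/-- The ultraproduct of irreducible representations spans the matrices. -/
theorem sp_gr {r n : ℕ} (hev : ∀ c, ev c = 0 ↔ ∀ᶠ i in (U : Filter ℕ), c i = 0)
    (hs : Function.Surjective ev)
    (ρ : ℕ → (FreeGroup (Fin r) →* GL (Fin n) ℂ)) (hsp : ∀ i, sp (ρ i) = ⊤) :
    sp (gr ev ρ) = ⊤ := by
  classical
  by_contra hcon
  obtain ⟨f, hf0, hf⟩ := Submodule.exists_le_ker_of_lt_top _ (lt_top_iff_ne_top.2 hcon)
  choose c hc using fun p : Fin n × Fin n => hs (f (Matrix.single p.1 p.2 1))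
  have hfM : ∀ M : Matrix (Fin n) (Fin n) K, f M = ∑ p, ∑ q, M p q * f (Matrix.single p q 1) := by
    intro M
    conv_lhs => rw [Matrix.matrix_eq_sum_single M]
    rw [map_sum]
    refine Finset.sum_congr rfl fun p _ => ?_
    rw [map_sum]
    refine Finset.sum_congr rfl fun q _ => ?_
    have h1 : Matrix.single p q (M p q) = M p q • Matrix.single p q (1 : K) := by
      rw [Matrix.smul_single, smul_eq_mul, mul_one]
    rw [h1, map_smul, smul_eq_mul]
  have hw : ∀ w, ∀ᶠ i in (U : Filter ℕ),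
      ∑ p, ∑ q, (ρ i w : Matrix (Fin n) (Fin n) ℂ) p q * c (p, q) i = 0 := by
    intro w
    have h1 : f (gr ev ρ w : Matrix (Fin n) (Fin n) K) = 0 := hf (mem_sp (gr ev ρ) w)
    rw [hfM] at h1
    have h2 : ev (fun i => ∑ p, ∑ q, (ρ i w : Matrix (Fin n) (Fin n) ℂ) p q * c (p, q) i) = 0 := by
      rw [← h1]
      have h3 : (fun i => ∑ p, ∑ q, (ρ i w : Matrix (Fin n) (Fin n) ℂ) p q * c (p, q) i) =
          ∑ p, ∑ q, (fun i => (ρ i w : Matrix (Fin n) (Fin n) ℂ) p q) * c (p, q) := by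
        funext i
        rw [Finset.sum_apply]
        refine Finset.sum_congr rfl fun p _ => ?_
        rw [Finset.sum_apply]
        rfl
      rw [h3, map_sum]
      refine Finset.sum_congr rfl fun p _ => ?_
      rw [map_sum]
      refine Finset.sum_congr rfl fun q _ => ?_
      rw [map_mul, hc]
      rfl
    exact (hev _).1 h2
  have hT : ∀ᶠ i in (U : Filter ℕ), ∀ w ∈ tw r (n * n + 1),
      ∑ p, ∑ q, (ρ i w : Matrix (Fin n) (Fin n) ℂ) p q * c (p, q) i = 0 :=
    (eventually_all_finite (finite_tw r _)).2 fun w _ => hw w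
  have hc0 : ∀ᶠ i in (U : Filter ℕ), ∀ p, c p i = 0 := by
    refine hT.mono fun i hi p => ?_
    let L : Matrix (Fin n) (Fin n) ℂ →ₗ[ℂ] ℂ :=
      { toFun := fun M => ∑ p, ∑ q, M p q * c (p, q) i
        map_add' := fun a b => by
          simp only [Matrix.add_apply, add_mul, Finset.sum_add_distrib]
        map_smul' := fun t a => by
          simp only [Matrix.smul_apply, smul_eq_mul, mul_assoc, ← Finset.mul_sum,
            RingHom.id_apply] }
    have h1 : sl (ρ i) (n * n + 1) ≤ LinearMap.ker L := by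
      unfold sl
      rw [Submodule.span_le]
      rintro _ ⟨w, hw, rfl⟩
      exact hi w hw
    have h2 : sp (ρ i) ≤ LinearMap.ker L := by
      unfold sp
      rw [Submodule.span_le]
      rintro _ ⟨w, rfl⟩
      exact h1 (words (ρ i) w)
    rw [hsp i] at h2
    have h3 : L (Matrix.single p.1 p.2 1) = 0 := h2 (Submodule.mem_top)
    have h4 : L (Matrix.single p.1 p.2 1) = c p i := by
      show ∑ a, ∑ b, (Matrix.single p.1 p.2 (1 : ℂ)) a b * c (a, b) i = c p i
      rw [Finset.sum_eq_single p.1, Finset.sum_eq_single p.2, Matrix.single_apply_same, one_mul]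
      · intro b _ hb
        rw [Matrix.single_apply_of_col_ne _ _ hb.symm, zero_mul]
      · intro h; exact absurd (Finset.mem_univ _) h
      · intro a _ ha
        refine Finset.sum_eq_zero fun b _ => ?_
        rw [Matrix.single_apply_of_row_ne ha.symm, zero_mul]
      · intro h; exact absurd (Finset.mem_univ _) h
    rw [← h4, h3]
  apply hf0
  refine LinearMap.ext fun M => ?_
  rw [hfM, LinearMap.zero_apply]
  refine Finset.sum_eq_zero fun p _ => Finset.sum_eq_zero fun q _ => ?_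
  rw [← hc (p, q), (hev _).2 (hc0.mono fun i hi => hi (p, q)), mul_zero]

/-- **Descent of subquotients.** -/
theorem descend {r n m : ℕ} (hev : ∀ c, ev c = 0 ↔ ∀ᶠ i in (U : Filter ℕ), c i = 0)
    (hs : Function.Surjective ev)
    (ρ : ℕ → (FreeGroup (Fin r) →* GL (Fin n) ℂ)) (W : ℕ → (FreeGroup (Fin r) →* GL (Fin m) ℂ))
    (a b : ℕ) (h : SubQ (gr ev ρ) (TT (gr ev W) a b)) :
    ∀ᶠ i in (U : Filter ℕ), SubQ (ρ i) (TT (W i) a b) := by
  classical
  obtain ⟨P, S, hPS⟩ := (subQ_iff (TT_mul (gr ev W) a b)).1 h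
  choose Pl hPl using fun x : Fin n × ((Fin a → Fin m) × (Fin b → Fin m)) => hs (P x.1 x.2)
  choose Sl hSl using fun x : ((Fin a → Fin m) × (Fin b → Fin m)) × Fin n => hs (S x.1 x.2)
  let Pm : Matrix (Fin n) ((Fin a → Fin m) × (Fin b → Fin m)) (ℕ → ℂ) :=
    Matrix.of fun p I => Pl (p, I)
  let Sm : Matrix ((Fin a → Fin m) × (Fin b → Fin m)) (Fin n) (ℕ → ℂ) :=
    Matrix.of fun I p => Sl (I, p)
  let Tm : FreeGroup (Fin r) → Matrix ((Fin a → Fin m) × (Fin b → Fin m))
      ((Fin a → Fin m) × (Fin b → Fin m)) (ℕ → ℂ) :=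
    fun g => Matrix.of fun I J i => TT (W i) a b g I J
  have hPm : Pm.map ev = P := by
    ext p I
    exact hPl (p, I)
  have hSm : Sm.map ev = S := by
    ext I p
    exact hSl (I, p)
  have hTm : ∀ g, (Tm g).map ev = TT (gr ev W) a b g := by
    intro g
    ext I J
    exact (TT_gr ev W a b g I J).symm
  have hw : ∀ g, ∀ᶠ i in (U : Filter ℕ), (ρ i g : Matrix (Fin n) (Fin n) ℂ) =
      Pm.map (Pi.evalRingHom (fun _ : ℕ => ℂ) i) * TT (W i) a b g *
        Sm.map (Pi.evalRingHom (fun _ : ℕ => ℂ) i) := by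
    intro g
    have h1 : (sq ρ g).map ev = (Pm * Tm g * Sm).map ev := by
      rw [Matrix.map_mul, Matrix.map_mul, hPm, hSm, hTm, ← gr_val, hPS g]
    have h2 : ∀ p q, ∀ᶠ i in (U : Filter ℕ), sq ρ g p q i = (Pm * Tm g * Sm) p q i := by
      intro p q
      refine (ev_eq U ev hev _ _).1 ?_
      exact congrFun (congrFun h1 p) q
    have h3 : ∀ᶠ i in (U : Filter ℕ), ∀ p q, sq ρ g p q i = (Pm * Tm g * Sm) p q i :=
      eventually_all.2 fun p => eventually_all.2 fun q => h2 p q
    refine h3.mono fun i hi => ?_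
    have h4 : (Pm * Tm g * Sm).map (Pi.evalRingHom (fun _ : ℕ => ℂ) i) =
        Pm.map (Pi.evalRingHom (fun _ : ℕ => ℂ) i) * TT (W i) a b g *
        Sm.map (Pi.evalRingHom (fun _ : ℕ => ℂ) i) := by
      rw [Matrix.map_mul, Matrix.map_mul]
      rfl
    rw [← h4]
    ext p q
    exact hi p q
  have hT : ∀ᶠ i in (U : Filter ℕ),
      ∀ g ∈ tw r ((n + sz m a b) * (n + sz m a b) + 1), (ρ i g : Matrix (Fin n) (Fin n) ℂ) =
      Pm.map (Pi.evalRingHom (fun _ : ℕ => ℂ) i) * TT (W i) a b g *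
        Sm.map (Pi.evalRingHom (fun _ : ℕ => ℂ) i) :=
    (eventually_all_finite (finite_tw r _)).2 fun g _ => hw g
  refine hT.mono fun i hi => ?_
  refine (subQ_iff (TT_mul (W i) a b)).2 ⟨Pm.map (Pi.evalRingHom (fun _ : ℕ => ℂ) i),
    Sm.map (Pi.evalRingHom (fun _ : ℕ => ℂ) i), fun g => ?_⟩
  set Pi' := Pm.map (Pi.evalRingHom (fun _ : ℕ => ℂ) i) with hPi'
  set Si' := Sm.map (Pi.evalRingHom (fun _ : ℕ => ℂ) i) with hSi'
  let A : Matrix (Fin (n + sz m a b)) (Fin (n + sz m a b)) ℂ → Matrix (Fin n) (Fin n) ℂ :=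
    fun M => Matrix.of fun p q => M (finSumFinEquiv (Sum.inl p)) (finSumFinEquiv (Sum.inl q))
  let B : Matrix (Fin (n + sz m a b)) (Fin (n + sz m a b)) ℂ →
      Matrix ((Fin a → Fin m) × (Fin b → Fin m)) ((Fin a → Fin m) × (Fin b → Fin m)) ℂ :=
    fun M => Matrix.of fun I J => M (finSumFinEquiv (Sum.inr (nu m a b I)))
      (finSumFinEquiv (Sum.inr (nu m a b J)))
  have hA : ∀ g, A (bd (ρ i) (tg (W i) a b) g : Matrix _ _ ℂ) =
      (ρ i g : Matrix (Fin n) (Fin n) ℂ) := by
    intro g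
    ext p q
    exact bd_inl (ρ i) (tg (W i) a b) g p q
  have hB : ∀ g, B (bd (ρ i) (tg (W i) a b) g : Matrix _ _ ℂ) = TT (W i) a b g := by
    intro g
    ext I J
    refine (bd_inr (ρ i) (tg (W i) a b) g (nu m a b I) (nu m a b J)).trans ?_
    rw [tg_apply, Matrix.reindex_apply, Matrix.submatrix_apply, Equiv.symm_apply_apply,
      Equiv.symm_apply_apply]
  have key : ∀ M ∈ sl (bd (ρ i) (tg (W i) a b)) ((n + sz m a b) * (n + sz m a b) + 1),
      A M = Pi' * B M * Si' := by
    intro M hM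
    unfold sl at hM
    induction hM using Submodule.span_induction with
    | mem M hM =>
      obtain ⟨g, hg, rfl⟩ := hM
      show A (bd (ρ i) (tg (W i) a b) g : Matrix _ _ ℂ) =
        Pi' * B (bd (ρ i) (tg (W i) a b) g : Matrix _ _ ℂ) * Si'
      rw [hA, hB]
      exact hi g hg
    | zero =>
      have h1 : A 0 = 0 := rfl
      have h2 : B 0 = 0 := rfl
      rw [h1, h2, Matrix.mul_zero, Matrix.zero_mul]
    | add x y _ _ hx hy =>
      have h1 : A (x + y) = A x + A y := rfl
      have h2 : B (x + y) = B x + B y := rfl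
      rw [h1, h2, hx, hy, Matrix.mul_add, Matrix.add_mul]
    | smul c x _ hx =>
      have h1 : A (c • x) = c • A x := rfl
      have h2 : B (c • x) = c • B x := rfl
      rw [h1, h2, hx, Matrix.mul_smul, Matrix.smul_mul]
  have h5 := key _ (words (bd (ρ i) (tg (W i) a b)) g)
  rwa [hA, hB] at h5

/-- Multiples of a representation. -/
theorem exists_mult {G : Type*} [Group G] {k : Type*} [Field k] {m : ℕ} (W : G →* GL (Fin m) k)
    (j : ℕ) : ∃ (M : ℕ) (W' : G →* GL (Fin M) k),
      (∀ g, (W' g : Matrix (Fin M) (Fin M) k).charpoly =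
        (W g : Matrix (Fin m) (Fin m) k).charpoly ^ j) ∧ AA W' ≤ AA W := by
  classical
  induction j with
  | zero =>
    refine ⟨0, 1, fun g => ?_, ?_⟩
    · rw [pow_zero, Matrix.charpoly, Matrix.det_isEmpty]
    · exact AA_le_of _ _ (fun i => i.elim0) (fun i => i.elim0)
  | succ j ih =>
    obtain ⟨M, W', h1, h2⟩ := ih
    refine ⟨M + m, bd W' W, fun g => ?_, ?_⟩
    · have h3 : (bd W' W g : Matrix (Fin (M + m)) (Fin (M + m)) k) =
          Matrix.reindex finSumFinEquiv finSumFinEquiv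
            (Matrix.fromBlocks (W' g : Matrix (Fin M) (Fin M) k) 0 0
              (W g : Matrix (Fin m) (Fin m) k)) := rfl
      rw [h3, Matrix.charpoly_reindex, Matrix.charpoly_fromBlocks_zero₁₂, h1, pow_succ]
    · have hent : ∀ i j : Fin (M + m), ent (bd W' W) i j ∈ AA W := by
        intro i j
        have h4 : ent (bd W' W) i j = fun g => Matrix.fromBlocks
            (W' g : Matrix (Fin M) (Fin M) k) 0 0 (W g : Matrix (Fin m) (Fin m) k)
            (finSumFinEquiv.symm i) (finSumFinEquiv.symm j) := rfl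
        rw [h4]
        rcases finSumFinEquiv.symm i with a | a <;> rcases finSumFinEquiv.symm j with b | b
        · simp only [Matrix.fromBlocks_apply₁₁]
          exact h2 (ent_mem W' a b)
        · simp only [Matrix.fromBlocks_apply₁₂, Matrix.zero_apply]
          exact (AA W).zero_mem
        · simp only [Matrix.fromBlocks_apply₂₁, Matrix.zero_apply]
          exact (AA W).zero_mem
        · simp only [Matrix.fromBlocks_apply₂₂]
          exact ent_mem W a b
      have hent' : ∀ i j : Fin (M + m), ent' (bd W' W) i j ∈ AA W := by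
        intro i j
        have h4 : ent' (bd W' W) i j = fun g => Matrix.fromBlocks
            (W' g⁻¹ : Matrix (Fin M) (Fin M) k) 0 0 (W g⁻¹ : Matrix (Fin m) (Fin m) k)
            (finSumFinEquiv.symm i) (finSumFinEquiv.symm j) := rfl
        rw [h4]
        rcases finSumFinEquiv.symm i with a | a <;> rcases finSumFinEquiv.symm j with b | b
        · simp only [Matrix.fromBlocks_apply₁₁]
          exact h2 (ent'_mem W' a b)
        · simp only [Matrix.fromBlocks_apply₁₂, Matrix.zero_apply]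
          exact (AA W).zero_mem
        · simp only [Matrix.fromBlocks_apply₂₁, Matrix.zero_apply]
          exact (AA W).zero_mem
        · simp only [Matrix.fromBlocks_apply₂₂]
          exact ent'_mem W a b
      exact AA_le_of _ _ hent hent'

/-- **Compactness.** -/
theorem compact {r n m : ℕ} (hn : 0 < n) (e : ℕ)
    (hev : ∀ c, ev c = 0 ↔ ∀ᶠ i in (U : Filter ℕ), c i = 0)
    (hs : Function.Surjective ev)
    (ρ : ℕ → (FreeGroup (Fin r) →* GL (Fin n) ℂ)) (W : ℕ → (FreeGroup (Fin r) →* GL (Fin m) ℂ))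
    (hirr : ∀ i, Irr (ρ i))
    (hdvd : ∀ g, ∀ᶠ i in (U : Filter ℕ), (ρ i g : Matrix (Fin n) (Fin n) ℂ).charpoly ∣
      (W i g : Matrix (Fin m) (Fin m) ℂ).charpoly ^ e) :
    ∃ a b, ∀ᶠ i in (U : Filter ℕ), SubQ (ρ i) (TT (W i) a b) := by
  have : IsAlgClosed K := algClosed ev hs
  have : CharZero K := charZeroK ev
  have h1 : Irr (gr ev ρ) := irr_of_sp (sp_gr U ev hev hs ρ fun i => sp_top hn (ρ i) (hirr i))
  obtain ⟨M, W', h2, h3⟩ := exists_mult (gr ev W) e
  obtain ⟨a, b, hab⟩ := exists_subQ hn (gr ev W) h1 fun i j => h3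
    (ent_mem_AA h1.ss (fun g => by
      rw [h2]
      exact dvd_gr U ev hev ρ W e g (hdvd g)) i j)
  exact ⟨a, b, descend U ev hev hs ρ W a b hab⟩

/-- **The uniform finite criterion for the free group.** -/
theorem uniform (r n m d : ℕ) (hn : 0 < n) : ∃ (Γ : Finset (FreeGroup (Fin r))) (B : ℕ),
    ∀ (ρ : FreeGroup (Fin r) →* GL (Fin n) ℂ) (W : FreeGroup (Fin r) →* GL (Fin m) ℂ), Irr ρ →
      (∀ w ∈ Γ, (ρ w : Matrix (Fin n) (Fin n) ℂ).charpoly ∣
        (W w : Matrix (Fin m) (Fin m) ℂ).charpoly ^ d) →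
      ∃ a b, a ≤ B ∧ b ≤ B ∧ SubQ ρ (TT W a b) := by
  classical
  by_contra hcon
  push Not at hcon
  have hcount : Countable (FreeGroup (Fin r)) :=
    Function.Surjective.countable (f := fun L : List (Fin r × Bool) => FreeGroup.mk L)
      (fun x => ⟨x.toWord, FreeGroup.mk_toWord⟩)
  obtain ⟨e, he⟩ := exists_surjective_nat (FreeGroup (Fin r))
  choose ρ W hirr hdvd hnot using fun i : ℕ => hcon ((Finset.range (i + 1)).image e) i
  let ev : (ℕ → ℂ) →+* (Filter.Germ (hyperfilter ℕ : Filter ℕ) ℂ) :=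
    Filter.Germ.coeRingHom (hyperfilter ℕ : Filter ℕ)
  have hev : ∀ c, ev c = 0 ↔ ∀ᶠ i in (hyperfilter ℕ : Filter ℕ), c i = 0 := by
    intro c
    exact Filter.Germ.coe_eq
  have hs : Function.Surjective ev := by
    intro x
    refine Filter.Germ.inductionOn x fun f => ⟨f, rfl⟩
  have hat : ∀ N : ℕ, ∀ᶠ i in (hyperfilter ℕ : Filter ℕ), N ≤ i := fun N =>
    Nat.hyperfilter_le_atTop (eventually_ge_atTop N)
  obtain ⟨a, b, hab⟩ := compact (hyperfilter ℕ) ev hn d hev hs ρ W hirr (by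
    intro g
    obtain ⟨j, rfl⟩ := he g
    refine (hat j).mono fun i hi => ?_
    refine hdvd i _ ?_
    rw [Finset.mem_image]
    exact ⟨j, Finset.mem_range.2 (by omega), rfl⟩)
  obtain ⟨i, h1, h2, h3⟩ := (hab.and ((hat a).and (hat b))).exists
  exact hnot i a b h2 h3 h1

end Pool.Agent.TH119.UF
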