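import Mathlib
import Pool.Agent.TH119.UF.Main
import Pool.Agent.TH119.PP.Coset

/-!
# The uniform finite criterion for finitely generated groups
-/

set_option autoImplicit false
set_option linter.unusedSectionVars false

namespace Pool.Agent.TH119.UF

open Matrix Polynomial
open Pool.Agent.TH119.GO (SubQ SubQ.dvd TT TT_apply Irr ent ent')
open Pool.Agent.TH119.PP (Dv dv_of_roots)

variable {G : Type*} [Group G] {k : Type*} [Field k] {n m : ℕ}

theorem TT_comp {H : Type*} [Group H] (φ : H →* G) (W : G →* GL (Fin m) k) (a b : ℕ) (h : H) :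
    TT (W.comp φ) a b h = TT W a b (φ h) := by
  ext I J
  rw [TT_apply, TT_apply]
  congr 1
  refine Finset.prod_congr rfl fun t _ => ?_
  show (W (φ h⁻¹) : Matrix (Fin m) (Fin m) k) _ _ = (W (φ h)⁻¹ : Matrix (Fin m) (Fin m) k) _ _
  rw [map_inv]

theorem irr_comp {H : Type*} [Group H] (φ : H →* G) (hφ : Function.Surjective φ)
    {R : G →* GL (Fin n) k} (h : Irr R) : Irr (R.comp φ) := by
  intro V hV
  refine h V fun g x hx => ?_
  obtain ⟨w, rfl⟩ := hφ g
  exact hV w x hx

theorem subQ_of_comp {H : Type*} [Group H] (φ : H →* G) (hφ : Function.Surjective φ)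
    {R : G →* GL (Fin n) k} {W : G →* GL (Fin m) k} {a b : ℕ}
    (h : SubQ (R.comp φ) (TT (W.comp φ) a b)) : SubQ R (TT W a b) := by
  obtain ⟨U, hU, π, hπ, he⟩ := h
  have hU' : ∀ g, ∀ u ∈ U, (TT W a b g).mulVec u ∈ U := by
    intro g u hu
    obtain ⟨w, rfl⟩ := hφ g
    rw [← TT_comp]
    exact hU w u hu
  refine ⟨U, hU', π, hπ, fun g u => ?_⟩
  obtain ⟨w, rfl⟩ := hφ g
  have h1 := he w u
  have h2 : (⟨(TT W a b (φ w)).mulVec u, hU' (φ w) u u.2⟩ : U) =
      ⟨(TT (W.comp φ) a b w).mulVec u, hU w u u.2⟩ := by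
    apply Subtype.ext
    show (TT W a b (φ w)).mulVec (u : _ → k) = (TT (W.comp φ) a b w).mulVec u
    rw [TT_comp]
  rw [h2, h1]
  rfl

theorem dim_le {t : ℕ} {R : G →* GL (Fin t) k} {M : G → Matrix (Fin n) (Fin n) k}
    (h : SubQ R M) : t ≤ n := by
  obtain ⟨U, -, π, hπ, -⟩ := h
  have h1 := LinearMap.finrank_le_finrank_of_surjective (f := π) hπ
  have h2 := Submodule.finrank_le U
  rw [Module.finrank_fin_fun] at h1 h2
  exact h1.trans h2

/-- **The uniform finite criterion.** -/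
theorem criterion (r n m : ℕ) : ∃ (Γ : Finset (FreeGroup (Fin r))) (B : ℕ),
    ∀ (G : Type) [Group G] (s : Fin r → G), Subgroup.closure (Set.range s) = ⊤ →
      ∀ (ρ : G →* GL (Fin n) ℂ) (W : G →* GL (Fin m) ℂ),
      (∀ w ∈ Γ, ∀ α : ℂ,
        (ρ (FreeGroup.lift s w) : Matrix (Fin n) (Fin n) ℂ).charpoly.IsRoot α →
        (W (FreeGroup.lift s w) : Matrix (Fin m) (Fin m) ℂ).charpoly.IsRoot α) →
      ∀ (t : ℕ) (R : G →* GL (Fin t) ℂ), 0 < t → Irr R →
        SubQ R (fun g => (ρ g : Matrix (Fin n) (Fin n) ℂ)) →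
        ∃ a b : ℕ, a ≤ B ∧ b ≤ B ∧ SubQ R (TT W a b) := by
  classical
  choose Γ B hΓ using fun (t : ℕ) (ht : 0 < t) => uniform r t m t ht
  refine ⟨(Finset.range (n + 1)).biUnion fun t => if ht : 0 < t then Γ t ht else ∅,
    (Finset.range (n + 1)).sup fun t => if ht : 0 < t then B t ht else 0, ?_⟩
  intro G _ s hs ρ W hroots t R ht hR hsub
  have htn : t ≤ n := dim_le hsub
  have hφ : Function.Surjective (FreeGroup.lift s) := by
    rw [← MonoidHom.range_eq_top, FreeGroup.range_lift_eq_closure, hs]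
  obtain ⟨a, b, ha, hb, hab⟩ := hΓ t ht (R.comp (FreeGroup.lift s)) (W.comp (FreeGroup.lift s))
    (irr_comp _ hφ hR) (fun w hw => by
      have h1 : Dv 1 (R (FreeGroup.lift s w) : Matrix (Fin t) (Fin t) ℂ)
          (W (FreeGroup.lift s w) : Matrix (Fin m) (Fin m) ℂ) := by
        refine dv_of_roots _ _ fun α hα => ⟨α, ?_, rfl⟩
        refine mem_roots'.2 ⟨(Matrix.charpoly_monic _).ne_zero, ?_⟩
        refine hroots w ?_ α ?_
        · rw [Finset.mem_biUnion]
          refine ⟨t, Finset.mem_range.2 (by omega), ?_⟩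
          rw [dif_pos ht]
          exact hw
        · exact (mem_roots'.1 hα).2.dvd (SubQ.dvd hsub (FreeGroup.lift s w))
      rw [Dv, pow_one, expand_one] at h1
      exact h1)
  have hle : B t ht ≤ (Finset.range (n + 1)).sup fun t => if ht : 0 < t then B t ht else 0 := by
    have h2 := Finset.le_sup (f := fun t => if ht : 0 < t then B t ht else 0)
      (Finset.mem_range.2 (Nat.lt_succ_of_le htn))
    simp only [dif_pos ht] at h2
    exact h2
  exact ⟨a, b, ha.trans hle, hb.trans hle, subQ_of_comp _ hφ hab⟩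

end Pool.Agent.TH119.UF
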